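import Mathlib

open MeasureTheory Set Real Filter Topology ProbabilityTheory

namespace Pool.Agent.V1185.McKay

/-- The weight `(1 - w^2)^(r-1)`. -/
noncomputable def wt (r w : ℝ) : ℝ := (1 - w ^ 2) ^ (r - 1)

lemma one_sub_sq_pos {w : ℝ} (hw : w ∈ Ioo (-1:ℝ) 1) : 0 < 1 - w ^ 2 := by
  nlinarith [hw.1, hw.2]

lemma wt_nonneg {r w : ℝ} (hw : w ∈ Ioo (-1:ℝ) 1) : 0 ≤ wt r w :=
  rpow_nonneg (one_sub_sq_pos hw).le _

lemma wt_pos {r w : ℝ} (hw : w ∈ Ioo (-1:ℝ) 1) : 0 < wt r w :=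
  rpow_pos_of_pos (one_sub_sq_pos hw) _

lemma measurable_wt (r : ℝ) : Measurable (wt r) := by
  unfold wt
  fun_prop

lemma wt_le {r w : ℝ} (hw : w ∈ Ioo (-1:ℝ) 1) :
    wt r w ≤ 1 + (1 - w) ^ (r - 1) + (1 + w) ^ (r - 1) := by
  have h1 : 0 < 1 - w := by linarith [hw.2]
  have h2 : 0 < 1 + w := by linarith [hw.1]
  have h3 := one_sub_sq_pos hw
  have p1 := (rpow_pos_of_pos h1 (r - 1)).le
  have p2 := (rpow_pos_of_pos h2 (r - 1)).le
  unfold wt
  rcases le_total 1 r with hr | hr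
  · have : (1 - w ^ 2) ^ (r - 1) ≤ 1 := rpow_le_one h3.le (by nlinarith) (by linarith)
    linarith
  · rcases le_total 0 w with h0 | h0
    · have : (1 - w ^ 2) ^ (r - 1) ≤ (1 - w) ^ (r - 1) :=
        rpow_le_rpow_of_nonpos h1 (by nlinarith [hw.2]) (by linarith)
      linarith
    · have : (1 - w ^ 2) ^ (r - 1) ≤ (1 + w) ^ (r - 1) :=
        rpow_le_rpow_of_nonpos h2 (by nlinarith [hw.1]) (by linarith)
      linarith

lemma integrableOn_wt {r : ℝ} (hr : 0 < r) : IntegrableOn (wt r) (Ioo (-1:ℝ) 1) := by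
  have i1 : IntervalIntegrable (fun w : ℝ => (1 - w) ^ (r - 1)) volume (-1) 1 := by
    have := (intervalIntegral.intervalIntegrable_rpow' (a := 0) (b := 2) (r := r - 1)
      (by linarith)).comp_sub_left 1
    have h2 : (1:ℝ) - 2 = -1 := by norm_num
    rw [sub_zero, h2] at this
    exact this.symm
  have i2 : IntervalIntegrable (fun w : ℝ => (1 + w) ^ (r - 1)) volume (-1) 1 := by
    have := (intervalIntegral.intervalIntegrable_rpow' (a := 0) (b := 2) (r := r - 1)
      (by linarith)).comp_add_left 1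
    have h2 : (2:ℝ) - 1 = 1 := by norm_num
    rw [zero_sub, h2] at this
    exact this
  have i3 : IntervalIntegrable (fun _ : ℝ => (1:ℝ)) volume (-1) 1 := intervalIntegrable_const
  have i4 := (i3.add i1).add i2
  rw [intervalIntegrable_iff_integrableOn_Ioo_of_le (by norm_num)] at i4
  refine Integrable.mono' i4 (measurable_wt r).aestronglyMeasurable ?_
  refine (ae_restrict_iff' measurableSet_Ioo).2 (Eventually.of_forall fun w hw => ?_)
  rw [Real.norm_of_nonneg (wt_nonneg hw)]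
  exact wt_le hw

/-- The measure `(1 - w^2)^(r-1) dw` on `(-1,1)`. -/
noncomputable def nu (r : ℝ) : Measure ℝ :=
  (volume.restrict (Ioo (-1:ℝ) 1)).withDensity (fun w => ENNReal.ofReal (wt r w))

lemma isFiniteMeasure_nu {r : ℝ} (hr : 0 < r) : IsFiniteMeasure (nu r) := by
  unfold nu
  exact isFiniteMeasure_withDensity_ofReal (integrableOn_wt hr).2

lemma ae_nu_mem (r : ℝ) : ∀ᵐ w ∂(nu r), w ∈ Ioo (-1:ℝ) 1 := by
  have h : nu r ≪ volume.restrict (Ioo (-1:ℝ) 1) := withDensity_absolutelyContinuous _ _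
  exact h.ae_le (ae_restrict_mem measurableSet_Ioo)

lemma integral_nu {r : ℝ} (f : ℝ → ℝ) :
    ∫ w, f w ∂(nu r) = ∫ w in Ioo (-1:ℝ) 1, wt r w * f w := by
  unfold nu
  rw [integral_withDensity_eq_integral_toReal_smul₀]
  · refine setIntegral_congr_fun measurableSet_Ioo fun w hw => ?_
    simp only [smul_eq_mul]
    rw [ENNReal.toReal_ofReal (wt_nonneg hw)]
  · exact (measurable_wt r).ennreal_ofReal.aemeasurable
  · exact Eventually.of_forall fun w => ENNReal.ofReal_lt_top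

lemma integrable_nu {r : ℝ} (hr : 0 < r) {f : ℝ → ℝ} (hf : Continuous f) :
    Integrable f (nu r) := by
  have := isFiniteMeasure_nu hr
  obtain ⟨C, hC⟩ := (isCompact_Icc (a := (-1:ℝ)) (b := 1)).exists_bound_of_continuousOn
    hf.continuousOn
  refine Integrable.of_bound hf.aestronglyMeasurable C ?_
  filter_upwards [ae_nu_mem r] with w hw
  exact hC w (Ioo_subset_Icc_self hw)

/-- The moments. -/
noncomputable def M (r : ℝ) (k : ℕ) (x : ℝ) : ℝ := ∫ w, w ^ k * exp (x * w) ∂(nu r)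

lemma interior_univ_mem {r : ℝ} (hr : 0 < r) (x : ℝ) :
    x ∈ interior (integrableExpSet (fun w : ℝ => w) (nu r)) := by
  have : integrableExpSet (fun w : ℝ => w) (nu r) = univ := by
    ext y
    simp only [integrableExpSet, mem_univ, iff_true]
    exact integrable_nu hr (f := fun w => exp (y * w)) (by fun_prop)
  rw [this, interior_univ]
  trivial

lemma hasDerivAt_M {r : ℝ} (hr : 0 < r) (k : ℕ) (x : ℝ) :
    HasDerivAt (M r k) (M r (k + 1) x) x :=
  hasDerivAt_integral_pow_mul_exp_real (interior_univ_mem hr x) k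

lemma continuous_M {r : ℝ} (hr : 0 < r) (k : ℕ) : Continuous (M r k) :=
  continuous_iff_continuousAt.2 fun x => (hasDerivAt_M hr k x).continuousAt

lemma nu_ne_zero {r : ℝ} : nu r ≠ 0 := by
  intro h
  have h1 : nu r (Ioo (-1:ℝ) 1) = 0 := by rw [h]; simp
  unfold nu at h1
  rw [withDensity_apply _ measurableSet_Ioo, Measure.restrict_restrict measurableSet_Ioo,
    inter_self, lintegral_eq_zero_iff (measurable_wt r).ennreal_ofReal] at h1
  have h2 := (ae_restrict_iff' measurableSet_Ioo).1 h1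
  have h3 : volume (Ioo (-1:ℝ) 1) = 0 := by
    refine measure_mono_null ?_ h2
    intro w hw
    simp only [mem_compl_iff, Set.mem_ofPred_eq, Pi.zero_apply, ENNReal.ofReal_eq_zero, not_forall,
      not_le]
    exact ⟨hw, wt_pos hw⟩
  rw [Real.volume_Ioo] at h3
  norm_num at h3

lemma M_zero_pos {r : ℝ} (hr : 0 < r) (x : ℝ) : 0 < M r 0 x := by
  have := isFiniteMeasure_nu hr
  have : NeZero (nu r) := ⟨nu_ne_zero⟩
  unfold M
  have : ∀ w : ℝ, w ^ 0 * exp (x * w) = exp (x * w) := by intro w; simp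
  simp only [this]
  exact integral_exp_pos (integrable_nu hr (f := fun w => exp (x * w)) (by fun_prop))

/-- The differential equation. -/
lemma M_ode {r : ℝ} (hr : 0 < r) (x : ℝ) : x * (M r 0 x - M r 2 x) = 2 * r * M r 1 x := by
  -- fundamental theorem for `(1-w^2)^r e^{xw}`
  let G : ℝ → ℝ := fun w => (1 - w ^ 2) ^ r * exp (x * w)
  let G' : ℝ → ℝ := fun w => wt r w * (-(2 * r * (w ^ 1 * exp (x * w)))
    + x * (w ^ 0 * exp (x * w) - w ^ 2 * exp (x * w)))
  have hG : ∀ w ∈ Ioo (-1:ℝ) 1, HasDerivAt G (G' w) w := by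
    intro w hw
    have h0 := one_sub_sq_pos hw
    have h1 : HasDerivAt (fun w : ℝ => 1 - w ^ 2) (-(2 * w)) w := by
      have := (hasDerivAt_pow 2 w).const_sub 1
      simpa using this
    have h2 := h1.rpow_const (p := r) (Or.inl h0.ne')
    have h3 : HasDerivAt (fun w : ℝ => exp (x * w)) (exp (x * w) * x) w := by
      have := ((hasDerivAt_id w).const_mul x).exp
      simpa using this
    refine (h2.mul h3).congr_deriv ?_
    have h4 : (1 - w ^ 2) ^ r = (1 - w ^ 2) ^ (r - 1) * (1 - w ^ 2) := by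
      rw [← rpow_add_one h0.ne']; congr 1; ring
    simp only [G', wt]
    rw [h4]
    ring
  have hGc : ContinuousOn G (Icc (-1:ℝ) 1) := by
    refine Continuous.continuousOn ?_
    refine Continuous.mul ?_ (by fun_prop)
    exact Continuous.rpow_const (by fun_prop) (fun _ => Or.inr hr.le)
  have hint : ∀ k : ℕ, IntegrableOn (fun w : ℝ => wt r w * (w ^ k * exp (x * w)))
      (Ioo (-1:ℝ) 1) := by
    intro k
    have hc : Continuous (fun w : ℝ => w ^ k * exp (x * w)) := by fun_prop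
    obtain ⟨C, hC⟩ := (isCompact_Icc (a := (-1:ℝ)) (b := 1)).exists_bound_of_continuousOn
      hc.continuousOn
    refine Integrable.mul_bdd (c := C) (integrableOn_wt hr) hc.aestronglyMeasurable ?_
    refine (ae_restrict_iff' measurableSet_Ioo).2 (Eventually.of_forall fun w hw => ?_)
    exact hC w (Ioo_subset_Icc_self hw)
  have hGi : IntegrableOn G' (Ioo (-1:ℝ) 1) := by
    have := ((hint 1).const_mul (-(2 * r))).add (((hint 0).sub (hint 2)).const_mul x)
    refine this.congr (Eventually.of_forall fun w => ?_)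
    simp only [G', Pi.add_apply, Pi.sub_apply]
    ring
  have hFTC := intervalIntegral.integral_eq_sub_of_hasDerivAt_of_le (a := (-1:ℝ)) (b := 1)
    (by norm_num) hGc hG
    ((intervalIntegrable_iff_integrableOn_Ioo_of_le (by norm_num)).2 hGi)
  have hG1 : G 1 = 0 := by simp [G, zero_rpow hr.ne']
  have hG2 : G (-1) = 0 := by simp [G, zero_rpow hr.ne']
  rw [hG1, hG2, sub_zero, intervalIntegral.integral_of_le (by norm_num),
    integral_Ioc_eq_integral_Ioo] at hFTC
  have hsplit : ∫ w in Ioo (-1:ℝ) 1, G' w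
      = -(2 * r) * M r 1 x + x * (M r 0 x - M r 2 x) := by
    unfold M
    have e1 : Integrable (fun w : ℝ => -(2 * r) * (wt r w * (w ^ 1 * exp (x * w))))
        (volume.restrict (Ioo (-1:ℝ) 1)) := (hint 1).const_mul _
    have e2 : Integrable (fun w : ℝ => x * (wt r w * (w ^ 0 * exp (x * w))
        - wt r w * (w ^ 2 * exp (x * w))))
        (volume.restrict (Ioo (-1:ℝ) 1)) := ((hint 0).sub (hint 2)).const_mul x
    rw [integral_nu, integral_nu, integral_nu, ← integral_sub (hint 0) (hint 2),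
      ← integral_const_mul, ← integral_const_mul, ← integral_add e1 e2]
    refine integral_congr_ae (Eventually.of_forall fun w => ?_)
    simp only [G']
    ring
  rw [hsplit] at hFTC
  linarith

/-- Cauchy-Schwarz. -/
lemma M_cs {r : ℝ} (hr : 0 < r) (x : ℝ) : M r 1 x ^ 2 ≤ M r 0 x * M r 2 x := by
  have h0 := M_zero_pos hr x
  set a := M r 1 x / M r 0 x with ha
  have hi : ∀ k : ℕ, Integrable (fun w : ℝ => w ^ k * exp (x * w)) (nu r) := fun k =>
    integrable_nu hr (by fun_prop)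
  have h1 : 0 ≤ ∫ w, (w - a) ^ 2 * exp (x * w) ∂(nu r) :=
    integral_nonneg fun w => by positivity
  have h2 : ∫ w, (w - a) ^ 2 * exp (x * w) ∂(nu r)
      = M r 2 x - 2 * a * M r 1 x + a ^ 2 * M r 0 x := by
    unfold M
    have e1 : Integrable (fun w : ℝ => 2 * a * (w ^ 1 * exp (x * w))) (nu r) :=
      (hi 1).const_mul _
    have e2 : Integrable (fun w : ℝ => w ^ 2 * exp (x * w) - 2 * a * (w ^ 1 * exp (x * w)))
      (nu r) := (hi 2).sub e1
    have e3 : Integrable (fun w : ℝ => a ^ 2 * (w ^ 0 * exp (x * w))) (nu r) :=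
      (hi 0).const_mul _
    rw [← integral_const_mul, ← integral_const_mul, ← integral_sub (hi 2) e1,
      ← integral_add e2 e3]
    refine integral_congr_ae (Eventually.of_forall fun w => ?_)
    simp only
    ring
  rw [h2] at h1
  have h3 : a * M r 0 x = M r 1 x := by rw [ha]; field_simp
  have h4 : M r 2 x - 2 * a * M r 1 x + a ^ 2 * M r 0 x = M r 2 x - a * M r 1 x := by
    rw [← h3]; ring
  rw [h4] at h1
  have h5 : 0 ≤ M r 0 x * (M r 2 x - a * M r 1 x) := mul_nonneg h0.le h1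
  have h6 : M r 0 x * (M r 2 x - a * M r 1 x) = M r 0 x * M r 2 x - M r 1 x ^ 2 := by
    rw [mul_sub, sq, ← h3]; ring
  linarith

/-- The key inequality. -/
lemma key_ineq {r δ t : ℝ} (hr : 0 < r) (hδ : 0 < δ) (hδ1 : δ < 1) (ht : 0 < t) (ht2 : t ≤ 2 * r) :
    M r 1 (δ * t / (1 - δ ^ 2)) ≤ δ * M r 0 (δ * t / (1 - δ ^ 2)) := by
  have hD : 0 < 1 - δ ^ 2 := by nlinarith
  set x := δ * t / (1 - δ ^ 2) with hx
  have hxD : x * (1 - δ ^ 2) = δ * t := by rw [hx]; field_simp
  have hx0 : 0 < x := by rw [hx]; positivity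
  have h0 := M_zero_pos hr x
  have hcs := M_cs hr x
  have hode := M_ode hr x
  by_contra hcon
  push Not at hcon
  have hL : 0 < δ * M r 0 x := mul_pos hδ h0
  -- x L1^2 + 2 r L0 L1 <= x L0^2
  have h1 : x * M r 1 x ^ 2 + 2 * r * M r 1 x * M r 0 x ≤ x * M r 0 x ^ 2 := by
    have : x * M r 1 x ^ 2 ≤ x * (M r 0 x * M r 2 x) := mul_le_mul_of_nonneg_left hcs hx0.le
    have h2 : 2 * r * M r 1 x * M r 0 x = x * (M r 0 x - M r 2 x) * M r 0 x := by rw [hode]
    nlinarith
  have h2 : x * (δ * M r 0 x) ^ 2 < x * M r 1 x ^ 2 := by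
    apply mul_lt_mul_of_pos_left _ hx0
    exact pow_lt_pow_left₀ hcon hL.le (by norm_num)
  have h3 : 2 * r * (δ * M r 0 x) * M r 0 x < 2 * r * M r 1 x * M r 0 x := by
    apply mul_lt_mul_of_pos_right _ h0
    exact mul_lt_mul_of_pos_left hcon (by positivity)
  have h4 : (x * δ ^ 2 + 2 * r * δ) * M r 0 x ^ 2 < x * M r 0 x ^ 2 := by nlinarith
  have h5 : x * δ ^ 2 + 2 * r * δ < x := lt_of_mul_lt_mul_right h4 (by positivity)
  nlinarith

/-- Strict form below `2r`. -/
lemma key_ineq_strict {r δ t : ℝ} (hr : 0 < r) (hδ : 0 < δ) (hδ1 : δ < 1) (ht : 0 < t)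
    (ht2 : t < 2 * r) :
    M r 1 (δ * t / (1 - δ ^ 2)) < δ * M r 0 (δ * t / (1 - δ ^ 2)) := by
  have hD : 0 < 1 - δ ^ 2 := by nlinarith
  set x := δ * t / (1 - δ ^ 2) with hx
  have hxD : x * (1 - δ ^ 2) = δ * t := by rw [hx]; field_simp
  have hx0 : 0 < x := by rw [hx]; positivity
  have h0 := M_zero_pos hr x
  have hcs := M_cs hr x
  have hode := M_ode hr x
  by_contra hcon
  push Not at hcon
  have hL : 0 < δ * M r 0 x := mul_pos hδ h0
  have h1 : x * M r 1 x ^ 2 + 2 * r * M r 1 x * M r 0 x ≤ x * M r 0 x ^ 2 := by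
    have : x * M r 1 x ^ 2 ≤ x * (M r 0 x * M r 2 x) := mul_le_mul_of_nonneg_left hcs hx0.le
    have h2 : 2 * r * M r 1 x * M r 0 x = x * (M r 0 x - M r 2 x) * M r 0 x := by rw [hode]
    nlinarith
  have h2 : x * (δ * M r 0 x) ^ 2 ≤ x * M r 1 x ^ 2 := by
    apply mul_le_mul_of_nonneg_left _ hx0.le
    exact pow_le_pow_left₀ hL.le hcon 2
  have h3 : 2 * r * (δ * M r 0 x) * M r 0 x ≤ 2 * r * M r 1 x * M r 0 x := by
    apply mul_le_mul_of_nonneg_right _ h0.le
    exact mul_le_mul_of_nonneg_left hcon (by positivity)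
  have h4 : (x * δ ^ 2 + 2 * r * δ) * M r 0 x ^ 2 ≤ x * M r 0 x ^ 2 := by nlinarith
  have h5 : x * δ ^ 2 + 2 * r * δ ≤ x := le_of_mul_le_mul_right h4 (by positivity)
  nlinarith

end Pool.Agent.V1185.McKay
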