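import Pool.Agent.V1185.McKay.Bess

open MeasureTheory Set Real Filter Topology ProbabilityTheory

namespace Pool.Agent.V1185.McKay

/-- the regular part of the density -/
noncomputable def hh (r δ s : ℝ) : ℝ :=
  (1 - δ ^ 2) ^ (-r) * exp (-(s / (1 - δ ^ 2))) * M r 0 (δ * s / (1 - δ ^ 2))

/-- its derivative in `δ` -/
noncomputable def hh' (r δ s : ℝ) : ℝ :=
  (1 - δ ^ 2) ^ (-r) * exp (-(s / (1 - δ ^ 2))) *
    ((2 * r * δ / (1 - δ ^ 2) - 2 * δ * s / (1 - δ ^ 2) ^ 2) * M r 0 (δ * s / (1 - δ ^ 2))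
      + s * (1 + δ ^ 2) / (1 - δ ^ 2) ^ 2 * M r 1 (δ * s / (1 - δ ^ 2)))

/-- the flux -/
noncomputable def EE (r δ s : ℝ) : ℝ :=
  s ^ (2 * r) * ((1 - δ ^ 2) ^ (-r - 1) * exp (-(s / (1 - δ ^ 2))) *
    (δ * M r 0 (δ * s / (1 - δ ^ 2)) - M r 1 (δ * s / (1 - δ ^ 2))))

lemma D_pos {δ : ℝ} (h : δ ∈ Ioo (-1:ℝ) 1) : 0 < 1 - δ ^ 2 := one_sub_sq_pos h

lemma hh_pos {r δ s : ℝ} (hr : 0 < r) (h : δ ∈ Ioo (-1:ℝ) 1) : 0 < hh r δ s := by
  have := D_pos h
  have := M_zero_pos hr (δ * s / (1 - δ ^ 2))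
  unfold hh
  positivity

lemma hasDerivAt_D (δ : ℝ) : HasDerivAt (fun δ : ℝ => 1 - δ ^ 2) (-(2 * δ)) δ := by
  have := (hasDerivAt_pow 2 δ).const_sub 1
  simpa using this

lemma hasDerivAt_hh {r δ : ℝ} (hr : 0 < r) (h : δ ∈ Ioo (-1:ℝ) 1) (s : ℝ) :
    HasDerivAt (fun δ => hh r δ s) (hh' r δ s) δ := by
  have hD := D_pos h
  have h1 := hasDerivAt_D δ
  have h2 := h1.rpow_const (p := -r) (Or.inl hD.ne')
  have h3 : HasDerivAt (fun δ : ℝ => s / (1 - δ ^ 2)) (s * (2 * δ) / (1 - δ ^ 2) ^ 2) δ := by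
    refine ((hasDerivAt_const δ s).div h1 hD.ne').congr_deriv ?_
    ring
  have h4 : HasDerivAt (fun δ : ℝ => δ * s / (1 - δ ^ 2)) (s * (1 + δ ^ 2) / (1 - δ ^ 2) ^ 2) δ := by
    have h5 : HasDerivAt (fun δ : ℝ => δ * s) s δ := by
      simpa using (hasDerivAt_id δ).mul_const s
    refine (h5.div h1 hD.ne').congr_deriv ?_
    ring
  have h6 := (hasDerivAt_M hr 0 (δ * s / (1 - δ ^ 2))).comp δ h4
  have h7 := (h2.mul h3.neg.exp).mul h6
  refine h7.congr_deriv ?_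
  have h8 : (1 - δ ^ 2) ^ (-r - 1) = (1 - δ ^ 2) ^ (-r) / (1 - δ ^ 2) := by
    rw [rpow_sub_one hD.ne']
  simp only [hh', Function.comp, Pi.mul_apply, Pi.neg_apply, zero_add]
  rw [h8]
  field_simp
  ring

lemma hasDerivAt_EE {r δ : ℝ} (hr : 0 < r) (h : δ ∈ Ioo (-1:ℝ) 1) {s : ℝ} (hs : 0 < s) :
    HasDerivAt (fun s => EE r δ s) (s ^ (2 * r - 1) * hh' r δ s) s := by
  have hD := D_pos h
  have h2 : HasDerivAt (fun s : ℝ => s ^ (2 * r)) (2 * r * s ^ (2 * r - 1)) s := by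
    have := (hasDerivAt_id s).rpow_const (p := 2 * r) (Or.inl hs.ne')
    simpa using this
  have h3 : HasDerivAt (fun s : ℝ => s / (1 - δ ^ 2)) (1 / (1 - δ ^ 2)) s :=
    (hasDerivAt_id s).div_const _
  have h4 : HasDerivAt (fun s : ℝ => δ * s / (1 - δ ^ 2)) (δ / (1 - δ ^ 2)) s := by
    have h5 : HasDerivAt (fun s : ℝ => δ * s) δ s := by
      simpa using (hasDerivAt_id s).const_mul δ
    exact h5.div_const _
  have h6 := (hasDerivAt_M hr 0 (δ * s / (1 - δ ^ 2))).comp s h4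
  have h7 := (hasDerivAt_M hr 1 (δ * s / (1 - δ ^ 2))).comp s h4
  have h8 := h2.mul ((h3.neg.exp.const_mul ((1 - δ ^ 2) ^ (-r - 1))).mul
    ((h6.const_mul δ).sub h7))
  refine h8.congr_deriv ?_
  have h9 : (1 - δ ^ 2) ^ (-r - 1) = (1 - δ ^ 2) ^ (-r) / (1 - δ ^ 2) := by
    rw [rpow_sub_one hD.ne']
  have h10 : s ^ (2 * r) = s ^ (2 * r - 1) * s := by
    rw [← rpow_add_one hs.ne']; congr 1; ring
  have hode := M_ode hr (δ * s / (1 - δ ^ 2))
  have h11 : δ * s / (1 - δ ^ 2) * M r 2 (δ * s / (1 - δ ^ 2))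
      = δ * s / (1 - δ ^ 2) * M r 0 (δ * s / (1 - δ ^ 2))
        - 2 * r * M r 1 (δ * s / (1 - δ ^ 2)) := by linarith
  simp only [hh', Function.comp, Pi.mul_apply, Pi.neg_apply, Pi.sub_apply, zero_add]
  rw [h9, h10]
  norm_num only [Nat.reduceAdd]
  generalize exp (-(s / (1 - δ ^ 2))) = X
  generalize (1 - δ ^ 2) ^ (-r) = Y
  generalize s ^ (2 * r - 1) = Z
  generalize M r 2 (δ * s / (1 - δ ^ 2)) = A2 at *
  generalize M r 1 (δ * s / (1 - δ ^ 2)) = A1 at *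
  generalize M r 0 (δ * s / (1 - δ ^ 2)) = A0 at *
  have h12 : δ * s * A2 = δ * s * A0 - 2 * r * A1 * (1 - δ ^ 2) := by
    field_simp at h11
    linarith
  field_simp
  generalize hDD : 1 - δ ^ 2 = D at *
  have h13 : δ ^ 2 = 1 - D := by linarith
  linear_combination (-(X * Y * Z)) * h12

lemma continuousOn_hh {r δ : ℝ} (hr : 0 < r) (_ : δ ∈ Ioo (-1:ℝ) 1) :
    Continuous (fun s => hh r δ s) := by
  unfold hh
  have h0 := continuous_M hr 0
  fun_prop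

lemma continuousOn_hh' {r : ℝ} (hr : 0 < r) :
    ContinuousOn (fun p : ℝ × ℝ => hh' r p.1 p.2) (Ioo (-1:ℝ) 1 ×ˢ univ) := by
  have hD : ∀ p ∈ (Ioo (-1:ℝ) 1 ×ˢ (univ : Set ℝ)), (1 - p.1 ^ 2) ≠ 0 := by
    intro p hp
    exact (D_pos hp.1).ne'
  have hD2 : ∀ p ∈ (Ioo (-1:ℝ) 1 ×ˢ (univ : Set ℝ)), (1 - p.1 ^ 2) ^ 2 ≠ 0 := by
    intro p hp
    exact pow_ne_zero 2 (hD p hp)
  have c1 : ContinuousOn (fun p : ℝ × ℝ => 1 - p.1 ^ 2) (Ioo (-1:ℝ) 1 ×ˢ (univ : Set ℝ)) := by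
    fun_prop
  have c2 : ContinuousOn (fun p : ℝ × ℝ => (1 - p.1 ^ 2) ^ (-r))
      (Ioo (-1:ℝ) 1 ×ˢ (univ : Set ℝ)) := c1.rpow_const fun p hp => Or.inl (hD p hp)
  have c3 : ContinuousOn (fun p : ℝ × ℝ => exp (-(p.2 / (1 - p.1 ^ 2))))
      (Ioo (-1:ℝ) 1 ×ˢ (univ : Set ℝ)) :=
    ((continuousOn_snd.div c1 hD).neg).rexp
  have c4 : ContinuousOn (fun p : ℝ × ℝ => p.1 * p.2 / (1 - p.1 ^ 2))
      (Ioo (-1:ℝ) 1 ×ˢ (univ : Set ℝ)) :=
    (continuousOn_fst.mul continuousOn_snd).div c1 hD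
  have c5 := (continuous_M hr 0).comp_continuousOn c4
  have c6 := (continuous_M hr 1).comp_continuousOn c4
  unfold hh'
  refine (c2.mul c3).mul (ContinuousOn.add (ContinuousOn.mul (ContinuousOn.sub ?_ ?_) c5)
    (ContinuousOn.mul ?_ c6))
  · exact ContinuousOn.div (by fun_prop) c1 hD
  · exact ContinuousOn.div (by fun_prop) (c1.pow 2) hD2
  · exact ContinuousOn.div (by fun_prop) (c1.pow 2) hD2

/-- the distribution function, up to a constant -/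
noncomputable def FF (r δ t : ℝ) : ℝ := ∫ s in Ioo 0 t, s ^ (2 * r - 1) * hh r δ s

lemma integrableOn_pow {r : ℝ} (hr : 0 < r) {t : ℝ} (ht : 0 ≤ t) :
    IntegrableOn (fun s : ℝ => s ^ (2 * r - 1)) (Ioo 0 t) := by
  have := intervalIntegral.intervalIntegrable_rpow' (a := 0) (b := t) (r := 2 * r - 1)
      (by linarith)
  rwa [intervalIntegrable_iff_integrableOn_Ioo_of_le ht] at this

lemma integrableOn_pow_mul {r : ℝ} (hr : 0 < r) {t : ℝ} (ht : 0 ≤ t) {g : ℝ → ℝ}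
    (hg : Continuous g) : IntegrableOn (fun s : ℝ => s ^ (2 * r - 1) * g s) (Ioo 0 t) := by
  obtain ⟨C, hC⟩ := (isCompact_Icc (a := (0:ℝ)) (b := t)).exists_bound_of_continuousOn
    hg.continuousOn
  refine Integrable.mul_bdd (c := C) (integrableOn_pow hr ht) hg.aestronglyMeasurable ?_
  refine (ae_restrict_iff' measurableSet_Ioo).2 (Eventually.of_forall fun w hw => ?_)
  exact hC w (Ioo_subset_Icc_self hw)

lemma hasDerivAt_FF {r δ t : ℝ} (hr : 0 < r) (h : δ ∈ Ioo (-1:ℝ) 1) (ht : 0 < t) :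
    HasDerivAt (fun δ => FF r δ t) (EE r δ t) δ := by
  -- a closed ball
  obtain ⟨ε, hε, hball⟩ := Metric.isOpen_iff.1 (isOpen_Ioo (a := (-1:ℝ)) (b := 1)) δ h
  have hcb : Metric.closedBall δ (ε / 2) ⊆ Ioo (-1:ℝ) 1 :=
    (Metric.closedBall_subset_ball (by linarith)).trans hball
  have hK : IsCompact (Metric.closedBall δ (ε / 2) ×ˢ Icc (0:ℝ) t) :=
    (isCompact_closedBall _ _).prod isCompact_Icc
  have hsub : Metric.closedBall δ (ε / 2) ×ˢ Icc (0:ℝ) t ⊆ Ioo (-1:ℝ) 1 ×ˢ (univ : Set ℝ) :=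
    prod_mono hcb (subset_univ _)
  have hcK : ContinuousOn (fun p : ℝ × ℝ => hh' r p.1 p.2)
      (Metric.closedBall δ (ε / 2) ×ˢ Icc (0:ℝ) t) := (continuousOn_hh' hr).mono hsub
  obtain ⟨C, hC⟩ : ∃ C, ∀ p ∈ Metric.closedBall δ (ε / 2) ×ˢ Icc (0:ℝ) t,
      ‖hh' r p.1 p.2‖ ≤ C := hK.exists_bound_of_continuousOn hcK
  have hsl : Continuous (fun s => hh' r δ s) := by
    unfold hh'
    have h0 := continuous_M hr 0
    have h1 := continuous_M hr 1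
    fun_prop
  have hmain := hasDerivAt_integral_of_dominated_loc_of_deriv_le
    (μ := volume.restrict (Ioo 0 t)) (F := fun δ s => s ^ (2 * r - 1) * hh r δ s)
    (F' := fun δ s => s ^ (2 * r - 1) * hh' r δ s) (x₀ := δ)
    (s := Metric.ball δ (ε / 2)) (bound := fun s => s ^ (2 * r - 1) * C)
    (Metric.ball_mem_nhds _ (by linarith))
    (by
      filter_upwards [Metric.ball_mem_nhds δ hε] with y hy
      exact (integrableOn_pow_mul hr ht.le (continuousOn_hh hr (hball hy))).aestronglyMeasurable)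
    (integrableOn_pow_mul hr ht.le (continuousOn_hh hr h))
    (integrableOn_pow_mul hr ht.le hsl).aestronglyMeasurable
    (by
      refine (ae_restrict_iff' measurableSet_Ioo).2 (Eventually.of_forall fun s hs y hy => ?_)
      rw [norm_mul, Real.norm_of_nonneg (rpow_nonneg hs.1.le _)]
      exact mul_le_mul_of_nonneg_left (hC (y, s) ⟨Metric.ball_subset_closedBall hy,
        Ioo_subset_Icc_self hs⟩) (rpow_nonneg hs.1.le _))
    ((integrableOn_pow hr ht.le).mul_const C)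
    (by
      refine Eventually.of_forall fun s y hy => ?_
      exact (hasDerivAt_hh hr (hcb (Metric.ball_subset_closedBall hy)) s).const_mul _)
  have hFTC := intervalIntegral.integral_eq_sub_of_hasDerivAt_of_le (a := (0:ℝ)) (b := t)
    (f := fun s => EE r δ s) (f' := fun s => s ^ (2 * r - 1) * hh' r δ s)
    ht.le
    (by
      refine Continuous.continuousOn ?_
      unfold EE
      have h0 := continuous_M hr 0
      have h1 := continuous_M hr 1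
      refine Continuous.mul (Continuous.rpow_const (by fun_prop) (fun _ => Or.inr (by linarith)))
        (by fun_prop))
    (fun s hs => hasDerivAt_EE hr h hs.1)
    ((intervalIntegrable_iff_integrableOn_Ioo_of_le ht.le).2
      (integrableOn_pow_mul hr ht.le hsl))
  rw [intervalIntegral.integral_of_le ht.le, integral_Ioc_eq_integral_Ioo] at hFTC
  have hE0 : EE r δ 0 = 0 := by
    unfold EE
    rw [zero_rpow (by linarith), zero_mul]
  rw [hE0, sub_zero] at hFTC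
  have := hmain.2
  rw [hFTC] at this
  exact this

lemma EE_pos {r δ t : ℝ} (hr : 0 < r) (hδ : 0 < δ) (hδ1 : δ < 1) (ht : 0 < t)
    (ht2 : t < 2 * r) : 0 < EE r δ t := by
  have hD : 0 < 1 - δ ^ 2 := D_pos ⟨by linarith, hδ1⟩
  have := key_ineq_strict hr hδ hδ1 ht ht2
  have h1 : 0 < δ * M r 0 (δ * t / (1 - δ ^ 2)) - M r 1 (δ * t / (1 - δ ^ 2)) := by linarith
  unfold EE
  positivity

lemma EE_nonneg {r δ t : ℝ} (hr : 0 < r) (hδ : 0 < δ) (hδ1 : δ < 1) (ht : 0 < t)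
    (ht2 : t ≤ 2 * r) : 0 ≤ EE r δ t := by
  have hD : 0 < 1 - δ ^ 2 := D_pos ⟨by linarith, hδ1⟩
  have := key_ineq hr hδ hδ1 ht ht2
  have h1 : 0 ≤ δ * M r 0 (δ * t / (1 - δ ^ 2)) - M r 1 (δ * t / (1 - δ ^ 2)) := by linarith
  unfold EE
  positivity

lemma continuousOn_FF {r t : ℝ} (hr : 0 < r) (ht : 0 < t) :
    ContinuousOn (fun δ => FF r δ t) (Ico 0 1) := fun δ hδ =>
  (hasDerivAt_FF hr ⟨by linarith [hδ.1], hδ.2⟩ ht).continuousAt.continuousWithinAt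

lemma strictMonoOn_FF {r t : ℝ} (hr : 0 < r) (ht : 0 < t) (ht2 : t < 2 * r) :
    StrictMonoOn (fun δ => FF r δ t) (Ico 0 1) := by
  refine strictMonoOn_of_deriv_pos (convex_Ico 0 1) (continuousOn_FF hr ht) ?_
  intro δ hδ
  rw [interior_Ico] at hδ
  rw [(hasDerivAt_FF hr ⟨by linarith [hδ.1], hδ.2⟩ ht).deriv]
  exact EE_pos hr hδ.1 hδ.2 ht ht2

lemma monotoneOn_FF {r t : ℝ} (hr : 0 < r) (ht : 0 < t) (ht2 : t ≤ 2 * r) :
    MonotoneOn (fun δ => FF r δ t) (Ico 0 1) := by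
  refine monotoneOn_of_deriv_nonneg (convex_Ico 0 1) (continuousOn_FF hr ht) ?_ ?_
  · intro δ hδ
    rw [interior_Ico] at hδ
    exact (hasDerivAt_FF hr ⟨by linarith [hδ.1], hδ.2⟩ ht).differentiableAt.differentiableWithinAt
  intro δ hδ
  rw [interior_Ico] at hδ
  rw [(hasDerivAt_FF hr ⟨by linarith [hδ.1], hδ.2⟩ ht).deriv]
  exact EE_nonneg hr hδ.1 hδ.2 ht ht2

end Pool.Agent.V1185.McKay
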