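import Pool.Agent.V1185.McKay.Deriv

open MeasureTheory Set Real Filter Topology ProbabilityTheory
open scoped ENNReal

namespace Pool.Agent.V1185.McKay

lemma lintegral_aff {α : ℝ} (hα : α ≠ 0) (β : ℝ) (φ : ℝ → ℝ≥0∞) :
    ∫⁻ x, φ x = ENNReal.ofReal |α| * ∫⁻ x, φ (α * x + β) := by
  have him : (fun x : ℝ => α * x + β) '' univ = univ := by
    rw [image_univ]
    refine eq_univ_of_forall fun y => ⟨(y - β) / α, ?_⟩
    simp only
    field_simp
    ring
  have h := lintegral_image_eq_lintegral_abs_deriv_mul (s := univ)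
    (f := fun x : ℝ => α * x + β) (f' := fun _ => α) MeasurableSet.univ
    (fun x _ => by
      have : HasDerivAt (fun x : ℝ => α * x + β) α x := by
        simpa using ((hasDerivAt_id x).const_mul α).add_const β
      exact this.hasDerivWithinAt)
    (fun x _ y _ hxy => by
      simp only at hxy
      have : α * x = α * y := by linarith
      exact mul_left_cancel₀ hα this) φ
  rw [him, setLIntegral_univ, setLIntegral_univ] at h
  rw [h, lintegral_const_mul' _ _ ENNReal.ofReal_ne_top]

/-- the constant -/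
noncomputable def kc (r : ℝ) : ℝ := 2 ^ (1 - 2 * r) / Gamma r ^ 2

lemma kc_pos {r : ℝ} (hr : 0 < r) : 0 < kc r := by
  unfold kc
  have := Gamma_pos_of_pos hr
  positivity

lemma inner_eq {r δ s : ℝ} (hr : 0 < r) (h0 : 0 ≤ δ) (h1 : δ < 1) (hs : 0 < s) :
    ∫⁻ a, gammaPDF r 1 a * gammaPDF r 1 ((s - (1 - δ) * a) / (1 + δ))
      = ENNReal.ofReal (s / (2 * (1 - δ))) * ENNReal.ofReal
        ((1 / Gamma r ^ 2 * (s ^ 2 / (4 * (1 - δ ^ 2))) ^ (r - 1) * exp (-(s / (1 - δ ^ 2))))
          * M r 0 (δ * s / (1 - δ ^ 2))) := by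
  have hc1 : 0 < 1 - δ := by linarith
  have hc2 : 0 < 1 + δ := by linarith
  have hD : 0 < 1 - δ ^ 2 := by nlinarith
  have hG := Gamma_pos_of_pos hr
  set A : ℝ := 1 / Gamma r ^ 2 * (s ^ 2 / (4 * (1 - δ ^ 2))) ^ (r - 1) * exp (-(s / (1 - δ ^ 2)))
    with hA
  have hA0 : 0 < A := by rw [hA]; positivity
  have hne : -(s / (2 * (1 - δ))) ≠ 0 := by
    apply ne_of_lt
    have : 0 < s / (2 * (1 - δ)) := by positivity
    linarith
  rw [lintegral_aff hne (s / (2 * (1 - δ)))]
  have habs : |-(s / (2 * (1 - δ)))| = s / (2 * (1 - δ)) := by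
    rw [abs_neg, abs_of_pos (by positivity)]
  rw [habs]
  congr 1
  -- reduce to the interval
  have hae : (fun w : ℝ => gammaPDF r 1 (-(s / (2 * (1 - δ))) * w + s / (2 * (1 - δ)))
      * gammaPDF r 1 ((s - (1 - δ) * (-(s / (2 * (1 - δ))) * w + s / (2 * (1 - δ)))) / (1 + δ)))
      =ᵐ[volume] (Ioo (-1:ℝ) 1).indicator
        (fun w => ENNReal.ofReal (A * (wt r w * (w ^ 0 * exp (δ * s / (1 - δ ^ 2) * w))))) := by
    have hn1 : ∀ᵐ w : ℝ ∂volume, w ≠ 1 := by
      simp [ae_iff]
    have hn2 : ∀ᵐ w : ℝ ∂volume, w ≠ -1 := by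
      simp [ae_iff]
    filter_upwards [hn1, hn2] with w hw1 hw2
    have e1 : -(s / (2 * (1 - δ))) * w + s / (2 * (1 - δ)) = s * (1 - w) / (2 * (1 - δ)) := by
      ring
    have e2 : (s - (1 - δ) * (s * (1 - w) / (2 * (1 - δ)))) / (1 + δ)
        = s * (1 + w) / (2 * (1 + δ)) := by
      field_simp
      ring
    rw [e1, e2]
    by_cases hw : w ∈ Ioo (-1:ℝ) 1
    · rw [indicator_of_mem hw]
      have p1 : 0 < 1 - w := by linarith [hw.2]
      have p2 : 0 < 1 + w := by linarith [hw.1]
      have q1 : 0 < s * (1 - w) / (2 * (1 - δ)) := by positivity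
      have q2 : 0 < s * (1 + w) / (2 * (1 + δ)) := by positivity
      rw [gammaPDF_of_nonneg q1.le, gammaPDF_of_nonneg q2.le, ← ENNReal.ofReal_mul (by positivity)]
      congr 1
      have e3 : (s * (1 - w) / (2 * (1 - δ))) ^ (r - 1) * (s * (1 + w) / (2 * (1 + δ))) ^ (r - 1)
          = (s ^ 2 / (4 * (1 - δ ^ 2))) ^ (r - 1) * (1 - w ^ 2) ^ (r - 1) := by
        rw [← mul_rpow q1.le q2.le, ← mul_rpow (by positivity) (one_sub_sq_pos hw).le]
        congr 1
        have : (1 - δ ^ 2) = (1 - δ) * (1 + δ) := by ring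
        rw [this]
        field_simp
        ring
      have e4 : exp (-(1 * (s * (1 - w) / (2 * (1 - δ))))) *
          exp (-(1 * (s * (1 + w) / (2 * (1 + δ)))))
          = exp (-(s / (1 - δ ^ 2))) * exp (δ * s / (1 - δ ^ 2) * w) := by
        rw [← exp_add, ← exp_add]
        congr 1
        have : (1 - δ ^ 2) = (1 - δ) * (1 + δ) := by ring
        rw [this]
        field_simp
        ring
      rw [hA, wt, one_rpow]
      calc 1 / Gamma r * (s * (1 - w) / (2 * (1 - δ))) ^ (r - 1)
            * exp (-(1 * (s * (1 - w) / (2 * (1 - δ))))) *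
            (1 / Gamma r * (s * (1 + w) / (2 * (1 + δ))) ^ (r - 1)
            * exp (-(1 * (s * (1 + w) / (2 * (1 + δ))))))
          = 1 / Gamma r ^ 2 * ((s * (1 - w) / (2 * (1 - δ))) ^ (r - 1)
            * (s * (1 + w) / (2 * (1 + δ))) ^ (r - 1)) *
            (exp (-(1 * (s * (1 - w) / (2 * (1 - δ))))) *
              exp (-(1 * (s * (1 + w) / (2 * (1 + δ)))))) := by
            field_simp
        _ = _ := by rw [e3, e4]; ring
    · rw [indicator_of_notMem hw]
      have hw' : w < -1 ∨ 1 < w := by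
        by_contra hcon
        push Not at hcon
        exact hw ⟨lt_of_le_of_ne hcon.1 (Ne.symm hw2), lt_of_le_of_ne hcon.2 hw1⟩
      rcases hw' with h | h
      · have : s * (1 + w) / (2 * (1 + δ)) < 0 := by
          apply div_neg_of_neg_of_pos _ (by positivity)
          nlinarith
        rw [gammaPDF_of_neg this, mul_zero]
      · have : s * (1 - w) / (2 * (1 - δ)) < 0 := by
          apply div_neg_of_neg_of_pos _ (by positivity)
          nlinarith
        rw [gammaPDF_of_neg this, zero_mul]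
  rw [lintegral_congr_ae hae, lintegral_indicator measurableSet_Ioo]
  have hint : IntegrableOn (fun w : ℝ => A * (wt r w * (w ^ 0 * exp (δ * s / (1 - δ ^ 2) * w))))
      (Ioo (-1:ℝ) 1) := by
    have hc : Continuous (fun w : ℝ => w ^ 0 * exp (δ * s / (1 - δ ^ 2) * w)) := by fun_prop
    obtain ⟨C, hC⟩ := (isCompact_Icc (a := (-1:ℝ)) (b := 1)).exists_bound_of_continuousOn
      hc.continuousOn
    refine Integrable.const_mul ?_ A
    refine Integrable.mul_bdd (c := C) (integrableOn_wt hr) hc.aestronglyMeasurable ?_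
    refine (ae_restrict_iff' measurableSet_Ioo).2 (Eventually.of_forall fun w hw => ?_)
    exact hC w (Ioo_subset_Icc_self hw)
  rw [← ofReal_integral_eq_lintegral_ofReal hint, integral_const_mul]
  · unfold M
    rw [integral_nu]
  · refine (ae_restrict_iff' measurableSet_Ioo).2 (Eventually.of_forall fun w hw => ?_)
    have := wt_nonneg (r := r) hw
    simp only [Pi.zero_apply]
    positivity

/-- The law of `(1-δ) X₁ + (1+δ) X₂`. -/
lemma law_eq {r δ t : ℝ} (hr : 0 < r) (h0 : 0 ≤ δ) (h1 : δ < 1) (ht : 0 ≤ t) :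
    ((gammaMeasure r 1).prod (gammaMeasure r 1)) {p | (1 - δ) * p.1 + (1 + δ) * p.2 ≤ t}
      = ENNReal.ofReal (kc r * FF r δ t) := by
  have hc1 : 0 < 1 - δ := by linarith
  have hc2 : 0 < 1 + δ := by linarith
  have hD : 0 < 1 - δ ^ 2 := by nlinarith
  have hG := Gamma_pos_of_pos hr
  have hgm : Measurable (gammaPDF r 1) := by
    unfold gammaPDF
    exact (measurable_gammaPDFReal r 1).ennreal_ofReal
  have hS : MeasurableSet {p : ℝ × ℝ | (1 - δ) * p.1 + (1 + δ) * p.2 ≤ t} :=
    measurableSet_le (by fun_prop) measurable_const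
  unfold gammaMeasure
  rw [prod_withDensity hgm hgm, withDensity_apply _ hS, ← lintegral_indicator hS,
    lintegral_prod]
  swap
  · exact ((by fun_prop : Measurable fun z : ℝ × ℝ => gammaPDF r 1 z.1 * gammaPDF r 1 z.2).indicator
      hS).aemeasurable
  -- change of variables in the inner integral
  have hstep : ∀ a : ℝ, (∫⁻ b, {p : ℝ × ℝ | (1 - δ) * p.1 + (1 + δ) * p.2 ≤ t}.indicator
      (fun z => gammaPDF r 1 z.1 * gammaPDF r 1 z.2) (a, b))
      = ∫⁻ s, (Iic t).indicator (fun s => ENNReal.ofReal (1 / (1 + δ)) *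
        (gammaPDF r 1 a * gammaPDF r 1 ((s - (1 - δ) * a) / (1 + δ)))) s := by
    intro a
    rw [lintegral_aff (α := 1 / (1 + δ)) (by positivity) (-((1 - δ) * a) / (1 + δ)),
      abs_of_pos (by positivity), ← lintegral_const_mul' _ _ ENNReal.ofReal_ne_top]
    refine lintegral_congr fun s => ?_
    have e1 : 1 / (1 + δ) * s + -((1 - δ) * a) / (1 + δ) = (s - (1 - δ) * a) / (1 + δ) := by
      ring
    rw [e1]
    have e2 : (1 - δ) * a + (1 + δ) * ((s - (1 - δ) * a) / (1 + δ)) = s := by
      field_simp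
      ring
    have e3 : ((a, (s - (1 - δ) * a) / (1 + δ)) : ℝ × ℝ)
        ∈ {p : ℝ × ℝ | (1 - δ) * p.1 + (1 + δ) * p.2 ≤ t} ↔ s ≤ t := by
      rw [Set.mem_ofPred_eq]
      simp only
      rw [e2]
    by_cases hst : s ≤ t
    · rw [indicator_of_mem (e3.2 hst), indicator_of_mem (show s ∈ Iic t from hst)]
    · rw [indicator_of_notMem (fun h => hst (e3.1 h)),
        indicator_of_notMem (show s ∉ Iic t from hst), mul_zero]
  simp_rw [hstep]
  rw [lintegral_lintegral_swap]
  swap
  · apply Measurable.aemeasurable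
    have : (Function.uncurry fun (a s : ℝ) => (Iic t).indicator (fun s => ENNReal.ofReal (1 / (1 + δ)) *
        (gammaPDF r 1 a * gammaPDF r 1 ((s - (1 - δ) * a) / (1 + δ)))) s)
        = (Prod.snd ⁻¹' Iic t).indicator (fun p : ℝ × ℝ => ENNReal.ofReal (1 / (1 + δ)) *
        (gammaPDF r 1 p.1 * gammaPDF r 1 ((p.2 - (1 - δ) * p.1) / (1 + δ)))) := by
      ext p
      rcases p with ⟨a, s⟩
      simp only [Function.uncurry]
      by_cases hst : s ∈ Iic t
      · rw [indicator_of_mem hst, indicator_of_mem (by simpa using hst)]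
      · rw [indicator_of_notMem hst, indicator_of_notMem (by simpa using hst)]
    rw [this]
    exact Measurable.indicator (by fun_prop) (measurable_snd measurableSet_Iic)
  have hae : (fun s : ℝ => ∫⁻ a, (Iic t).indicator (fun s => ENNReal.ofReal (1 / (1 + δ)) *
        (gammaPDF r 1 a * gammaPDF r 1 ((s - (1 - δ) * a) / (1 + δ)))) s)
      =ᵐ[volume] (Ioo 0 t).indicator (fun s => ENNReal.ofReal
        (kc r * (s ^ (2 * r - 1) * hh r δ s))) := by
    have hn1 : ∀ᵐ w : ℝ ∂volume, w ≠ 0 := by
      simp [ae_iff]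
    have hn2 : ∀ᵐ w : ℝ ∂volume, w ≠ t := by
      simp [ae_iff]
    filter_upwards [hn1, hn2] with s hs1 hs2
    by_cases hst : s ∈ Iic t
    · simp only [indicator_of_mem hst]
      rw [lintegral_const_mul' _ _ ENNReal.ofReal_ne_top]
      rcases lt_or_gt_of_ne hs1 with hs | hs
      · rw [indicator_of_notMem (fun h => by linarith [h.1])]
        have : (fun a : ℝ => gammaPDF r 1 a * gammaPDF r 1 ((s - (1 - δ) * a) / (1 + δ)))
            = fun _ => 0 := by
          ext a
          rcases lt_or_ge a 0 with ha | ha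
          · rw [gammaPDF_of_neg ha, zero_mul]
          · have : (s - (1 - δ) * a) / (1 + δ) < 0 := by
              apply div_neg_of_neg_of_pos _ hc2
              nlinarith
            rw [gammaPDF_of_neg this, mul_zero]
        rw [this, lintegral_zero, mul_zero]
      · rw [indicator_of_mem (show s ∈ Ioo 0 t from ⟨hs, lt_of_le_of_ne hst hs2⟩), inner_eq hr h0 h1 hs,
          ← ENNReal.ofReal_mul (by positivity), ← ENNReal.ofReal_mul (by positivity)]
        congr 1
        unfold hh kc
        have e1 : (s ^ 2 / (4 * (1 - δ ^ 2))) ^ (r - 1)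
            = s ^ (2 * r - 1) / s * ((2:ℝ) ^ (1 - 2 * r) * 2) *
              ((1 - δ ^ 2) ^ (-r) * (1 - δ ^ 2)) := by
          rw [div_rpow (by positivity) (by positivity), mul_rpow (by norm_num) hD.le]
          have f1 : (s ^ 2) ^ (r - 1) = s ^ (2 * r - 1) / s := by
            rw [← rpow_natCast, ← rpow_mul hs.le, ← rpow_sub_one hs.ne']
            congr 1
            push_cast
            ring
          have f2 : (4:ℝ) ^ (r - 1) = ((2:ℝ) ^ (1 - 2 * r) * 2)⁻¹ := by
            have : (4:ℝ) = (2:ℝ) ^ (2:ℝ) := by norm_num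
            rw [this, ← rpow_mul (by norm_num), ← rpow_add_one (by norm_num),
              ← rpow_neg (by norm_num)]
            congr 1
            ring
          have f3 : (1 - δ ^ 2) ^ (r - 1) = ((1 - δ ^ 2) ^ (-r) * (1 - δ ^ 2))⁻¹ := by
            rw [← rpow_add_one hD.ne', ← rpow_neg hD.le]
            congr 1
            ring
          rw [f1, f2, f3]
          field_simp
        rw [e1]
        have : (1 - δ ^ 2) = (1 - δ) * (1 + δ) := by ring
        generalize exp (-(s / (1 - δ ^ 2))) = X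
        generalize M r 0 (δ * s / (1 - δ ^ 2)) = Y
        generalize (1 - δ ^ 2) ^ (-r) = Z
        rw [this]
        field_simp
    · simp only [indicator_of_notMem hst]
      rw [indicator_of_notMem (fun h => hst h.2.le), lintegral_zero]
  rw [lintegral_congr_ae hae, lintegral_indicator measurableSet_Ioo]
  have hcont : Continuous (fun s => hh r δ s) := continuousOn_hh hr ⟨by linarith, h1⟩
  have hint := (integrableOn_pow_mul hr ht hcont).const_mul (kc r)
  rw [← ofReal_integral_eq_lintegral_ofReal hint, integral_const_mul]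
  · rfl
  · refine (ae_restrict_iff' measurableSet_Ioo).2 (Eventually.of_forall fun s hs => ?_)
    have h3 := hh_pos (s := s) hr (δ := δ) ⟨by linarith, h1⟩
    have h4 := kc_pos hr
    have h5 := rpow_nonneg hs.1.le (2 * r - 1)
    simp only [Pi.zero_apply]
    positivity

end Pool.Agent.V1185.McKay
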