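import Pool.Agent.V1185.McKay.Law

open MeasureTheory Set Real Filter Topology ProbabilityTheory
open scoped ENNReal

namespace Pool.Agent.V1185.McKay

/-- The integrand of the Gamma function. -/
noncomputable def gi (s x : ℝ) : ℝ := exp (-x) * x ^ (s - 1)

lemma gi_lt {s x : ℝ} (hs : 0 < s) (hx : x ∈ Ioo 0 s) :
    s ^ 2 / x ^ 2 * gi s (s ^ 2 / x) < gi s x := by
  have hx0 := hx.1
  have hy : 0 < log (s / x) := log_pos ((one_lt_div hx0).2 hx.2)
  have h1 := self_lt_sinh_iff.2 hy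
  rw [sinh_eq, exp_neg, exp_log (by positivity), inv_div] at h1
  have e1 : s ^ 2 / x ^ 2 * (s ^ 2 / x) ^ (s - 1) = (s ^ 2 / x) ^ s / x := by
    have : (s ^ 2 / x) ^ s = (s ^ 2 / x) ^ (s - 1) * (s ^ 2 / x) := by
      rw [← rpow_add_one (by positivity)]; congr 1; ring
    rw [this]; field_simp
  have e2 : x ^ (s - 1) = x ^ s / x := by rw [rpow_sub_one hx0.ne']
  unfold gi
  have e3 : s ^ 2 / x ^ 2 * (exp (-(s ^ 2 / x)) * (s ^ 2 / x) ^ (s - 1))
      = (exp (-(s ^ 2 / x)) * (s ^ 2 / x) ^ s) / x := by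
    rw [mul_left_comm, e1]; ring
  have e4 : exp (-x) * x ^ (s - 1) = (exp (-x) * x ^ s) / x := by rw [e2]; ring
  rw [e3, e4]
  apply div_lt_div_of_pos_right _ hx0
  rw [rpow_def_of_pos (by positivity), rpow_def_of_pos hx0, ← exp_add, ← exp_add]
  apply exp_lt_exp.2
  have l1 : log (s / x) = log s - log x := log_div hs.ne' hx0.ne'
  have l2 : log (s ^ 2 / x) = 2 * log s - log x := by
    rw [log_div (by positivity) hx0.ne', log_pow]; push_cast; ring
  rw [l1] at h1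
  rw [l2]
  have h2 : s * (log s - log x) < s * ((s / x - x / s) / 2) := mul_lt_mul_of_pos_left h1 hs
  have h3 : s * ((s / x - x / s) / 2) = (s ^ 2 / x - x) / 2 := by
    field_simp
  rw [h3] at h2
  nlinarith

lemma image_inv {s : ℝ} (hs : 0 < s) : (fun x : ℝ => s ^ 2 / x) '' Ioo 0 s = Ioi s := by
  ext y
  constructor
  · rintro ⟨x, hx, rfl⟩
    simp only [mem_Ioi]
    rw [lt_div_iff₀ hx.1]
    nlinarith [hx.2, hx.1]
  · intro hy
    have hy' : s < y := hy
    have hy0 : 0 < y := hs.trans hy'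
    refine ⟨s ^ 2 / y, ⟨by positivity, ?_⟩, ?_⟩
    · rw [div_lt_iff₀ hy0]; nlinarith
    · simp only
      field_simp

lemma gi_integrable {s : ℝ} (hs : 0 < s) : IntegrableOn (gi s) (Ioi 0) :=
  Real.GammaIntegral_convergent hs

lemma gi_median {s : ℝ} (hs : 0 < s) : ∫ x in Ioi s, gi s x < ∫ x in Ioo 0 s, gi s x := by
  have hder : ∀ x ∈ Ioo 0 s, HasDerivWithinAt (fun x : ℝ => s ^ 2 / x) (-(s ^ 2 / x ^ 2))
      (Ioo 0 s) x := by
    intro x hx
    have h := (hasDerivAt_const x (s ^ 2)).div (hasDerivAt_id x) hx.1.ne'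
    refine (h.congr_deriv ?_).hasDerivWithinAt
    simp only [id]
    ring
  have hinj : InjOn (fun x : ℝ => s ^ 2 / x) (Ioo 0 s) := by
    intro x hx y hy hxy
    simp only at hxy
    rw [div_eq_div_iff hx.1.ne' hy.1.ne'] at hxy
    have := mul_left_cancel₀ (pow_ne_zero 2 hs.ne') hxy
    exact this.symm
  have himg := image_inv hs
  have h1 := integral_image_eq_integral_abs_deriv_smul measurableSet_Ioo hder hinj (gi s)
  have h2 := (integrableOn_image_iff_integrableOn_abs_deriv_smul measurableSet_Ioo hder hinj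
    (gi s)).1 (by
      rw [himg]
      exact (gi_integrable hs).mono_set (fun x hx => hs.trans hx))
  rw [himg] at h1
  rw [h1, ← sub_pos, ← integral_sub ((gi_integrable hs).mono_set (fun x hx => hx.1)) h2]
  have hpos : ∀ x ∈ Ioo 0 s, 0 < gi s x - |-(s ^ 2 / x ^ 2)| • gi s (s ^ 2 / x) := by
    intro x hx
    have := gi_lt hs hx
    rw [abs_neg, abs_of_nonneg (by positivity), smul_eq_mul]
    linarith
  rw [setIntegral_pos_iff_support_of_nonneg_ae]
  · have hsub : Ioo 0 s ⊆ Function.support (fun x => gi s x -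
      |-(s ^ 2 / x ^ 2)| • gi s (s ^ 2 / x)) ∩ Ioo 0 s := fun x hx => ⟨(hpos x hx).ne', hx⟩
    refine lt_of_lt_of_le ?_ (measure_mono hsub)
    rw [Real.volume_Ioo, sub_zero]
    exact ENNReal.ofReal_pos.2 hs
  · exact (ae_restrict_iff' measurableSet_Ioo).2 (Eventually.of_forall fun x hx => (hpos x hx).le)
  · exact ((gi_integrable hs).mono_set (fun x hx => hx.1)).sub h2

lemma FF_zero {r t : ℝ} : FF r 0 t = M r 0 0 * ∫ s in Ioo 0 t, gi (2 * r) s := by
  unfold FF hh gi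
  rw [← integral_const_mul]
  refine integral_congr_ae (Eventually.of_forall fun s => ?_)
  simp
  ring

lemma gi_nonneg {s x : ℝ} (hx : 0 < x) : 0 ≤ gi s x := by
  unfold gi
  positivity

lemma half_lt {r : ℝ} (hr : 0 < r) : 1 / 2 < kc r * FF r 0 (2 * r) := by
  have : IsProbabilityMeasure (gammaMeasure r 1) := isProbabilityMeasure_gammaMeasure hr one_pos
  set μ := (gammaMeasure r 1).prod (gammaMeasure r 1) with hμ
  have h2r : 0 < 2 * r := by linarith
  set I1 := ∫ s in Ioo 0 (2 * r), gi (2 * r) s with hI1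
  set I2 := ∫ s in Ioi (2 * r), gi (2 * r) s with hI2
  have hk := kc_pos hr
  have hM := M_zero_pos hr 0
  have hlt : I2 < I1 := gi_median h2r
  have hle : ∀ n : ℕ, μ {p | (1 - (0:ℝ)) * p.1 + (1 + 0) * p.2 ≤ n}
      ≤ ENNReal.ofReal (kc r * (M r 0 0 * (I1 + I2))) := by
    intro n
    rw [hμ, law_eq hr le_rfl one_pos (Nat.cast_nonneg n), FF_zero]
    apply ENNReal.ofReal_le_ofReal
    apply mul_le_mul_of_nonneg_left _ hk.le
    apply mul_le_mul_of_nonneg_left _ hM.le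
    have h1 : I1 + I2 = ∫ s in Ioi 0, gi (2 * r) s := by
      rw [hI1, hI2, ← integral_Ioc_eq_integral_Ioo, ← Ioc_union_Ioi_eq_Ioi h2r.le,
        setIntegral_union]
      · exact Set.disjoint_left.2 fun x hx hx2 => absurd hx.2 (not_le.2 hx2)
      · exact measurableSet_Ioi
      · exact (gi_integrable h2r).mono_set fun x hx => hx.1
      · exact (gi_integrable h2r).mono_set fun x hx => h2r.trans hx
    rw [h1]
    refine setIntegral_mono_set (gi_integrable h2r) ?_ ?_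
    · exact (ae_restrict_iff' measurableSet_Ioi).2 (Eventually.of_forall fun x hx => gi_nonneg hx)
    · exact Eventually.of_forall fun x hx => hx.1
  have hun : ⋃ n : ℕ, {p : ℝ × ℝ | (1 - (0:ℝ)) * p.1 + (1 + 0) * p.2 ≤ n} = univ := by
    refine eq_univ_of_forall fun p => ?_
    obtain ⟨n, hn⟩ := exists_nat_ge ((1 - (0:ℝ)) * p.1 + (1 + 0) * p.2)
    exact mem_iUnion.2 ⟨n, hn⟩
  have hmono : Monotone fun n : ℕ => {p : ℝ × ℝ | (1 - (0:ℝ)) * p.1 + (1 + 0) * p.2 ≤ n} := by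
    intro a b hab p hp
    have : (a:ℝ) ≤ b := by exact_mod_cast hab
    exact le_trans (show _ ≤ (a:ℝ) from hp) this
  have h1 : (1:ℝ≥0∞) ≤ ENNReal.ofReal (kc r * (M r 0 0 * (I1 + I2))) := by
    have h3 : μ univ = 1 := by rw [hμ]; exact measure_univ
    rw [← h3, ← hun, hmono.measure_iUnion]
    exact iSup_le hle
  have h2 : 1 ≤ kc r * (M r 0 0 * (I1 + I2)) := ENNReal.one_le_ofReal.1 h1
  rw [FF_zero, ← hI1]
  have h3 : kc r * (M r 0 0 * (I1 + I2)) < kc r * (M r 0 0 * (I1 + I1)) := by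
    apply mul_lt_mul_of_pos_left _ hk
    apply mul_lt_mul_of_pos_left _ hM
    linarith
  nlinarith

/-- distribution function for nonnegative arguments -/
noncomputable def QQ (r δ t : ℝ) : ℝ := kc r * FF r δ t

lemma intervalIntegrable_dens {r δ : ℝ} (hr : 0 < r) (h : δ ∈ Ioo (-1:ℝ) 1) (a b : ℝ) :
    IntervalIntegrable (fun s : ℝ => s ^ (2 * r - 1) * hh r δ s) volume a b := by
  have h1 : IntervalIntegrable (fun s : ℝ => s ^ (2 * r - 1)) volume a b :=
    intervalIntegral.intervalIntegrable_rpow' (by linarith)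
  exact h1.mul_continuousOn (continuousOn_hh hr h).continuousOn

lemma FF_eq {r δ t : ℝ} (ht : 0 ≤ t) :
    FF r δ t = ∫ s in (0:ℝ)..t, s ^ (2 * r - 1) * hh r δ s := by
  unfold FF
  rw [intervalIntegral.integral_of_le ht, integral_Ioc_eq_integral_Ioo]

lemma continuousOn_QQ {r δ : ℝ} (hr : 0 < r) (h : δ ∈ Ioo (-1:ℝ) 1) :
    ContinuousOn (fun t => QQ r δ t) (Ici 0) := by
  have h1 : Continuous (fun t => ∫ s in (0:ℝ)..t, s ^ (2 * r - 1) * hh r δ s) :=
    intervalIntegral.continuous_primitive (intervalIntegrable_dens hr h) 0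
  refine ContinuousOn.congr (f := fun t => kc r * ∫ s in (0:ℝ)..t, s ^ (2 * r - 1) * hh r δ s)
    (h1.const_mul _).continuousOn ?_
  intro t ht
  simp only [QQ]
  rw [FF_eq ht]

lemma strictMonoOn_QQ {r δ : ℝ} (hr : 0 < r) (h : δ ∈ Ioo (-1:ℝ) 1) :
    StrictMonoOn (fun t => QQ r δ t) (Ici 0) := by
  intro a ha b hb hab
  simp only [QQ]
  apply mul_lt_mul_of_pos_left _ (kc_pos hr)
  rw [FF_eq ha, FF_eq hb, ← sub_pos, intervalIntegral.integral_interval_sub_left
    (intervalIntegrable_dens hr h 0 b) (intervalIntegrable_dens hr h 0 a)]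
  refine intervalIntegral.intervalIntegral_pos_of_pos_on (intervalIntegrable_dens hr h a b) ?_ hab
  intro x hx
  have hx0 : 0 < x := lt_of_le_of_lt ha hx.1
  exact mul_pos (rpow_pos_of_pos hx0 _) (hh_pos hr h)

lemma QQ_zero {r δ : ℝ} : QQ r δ 0 = 0 := by
  simp [QQ, FF]

lemma half_lt_QQ {r δ : ℝ} (hr : 0 < r) (h0 : 0 ≤ δ) (h1 : δ < 1) : 1 / 2 < QQ r δ (2 * r) := by
  refine lt_of_lt_of_le (half_lt hr) ?_
  unfold QQ
  apply mul_le_mul_of_nonneg_left _ (kc_pos hr).le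
  exact monotoneOn_FF hr (by linarith) le_rfl ⟨le_rfl, one_pos⟩ ⟨h0, h1⟩ h0

lemma exists_half {r δ : ℝ} (hr : 0 < r) (h0 : 0 ≤ δ) (h1 : δ < 1) :
    ∃ t, 0 < t ∧ t < 2 * r ∧ QQ r δ t = 1 / 2 := by
  have hδ : δ ∈ Ioo (-1:ℝ) 1 := ⟨by linarith, h1⟩
  have hc : ContinuousOn (fun t => QQ r δ t) (Icc 0 (2 * r)) :=
    (continuousOn_QQ hr hδ).mono Icc_subset_Ici_self
  have hiv := intermediate_value_Ioo (by linarith : (0:ℝ) ≤ 2 * r) hc
  obtain ⟨t, ht, hq⟩ := hiv (show (1:ℝ) / 2 ∈ Ioo (QQ r δ 0) (QQ r δ (2 * r)) by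
    rw [QQ_zero]
    exact ⟨by norm_num, half_lt_QQ hr h0 h1⟩)
  exact ⟨t, ht.1, ht.2, hq⟩

end Pool.Agent.V1185.McKay
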